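import Pool.Agent.Y674.HY.Stm2

set_option autoImplicit false

/-! # HY2-SMALL: the form is small at all conjugates, so it vanishes -/

namespace Pool.Agent.Y688.HY

open Polynomial NumberField Pool.Agent.Y674.HY

theorem prod_le_pow {ι : Type} (I : Finset ι) (f : ι → ℝ) (R : ℝ) (h0 : ∀ i ∈ I, 0 ≤ f i)
    (h1 : ∀ i ∈ I, f i ≤ R) : ∏ i ∈ I, f i ≤ R ^ I.card := by
  refine (Finset.prod_le_prod h0 h1).trans ?_
  rw [Finset.prod_const]

/-- difference of products -/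
theorem prod_diff {ι : Type} [DecidableEq ι] (I : Finset ι) (a c : ι → ℂ) (R δ : ℝ) (hR : 1 ≤ R)
    (hδ : 0 ≤ δ) (ha : ∀ i, ‖a i‖ ≤ R) (hc : ∀ i, ‖c i‖ ≤ R) (h : ∀ i, ‖a i - c i‖ ≤ δ) :
    ‖∏ i ∈ I, a i - ∏ i ∈ I, c i‖ ≤ I.card * R ^ I.card * δ := by
  induction I using Finset.induction_on with
  | empty => simp
  | insert x I hx ih =>
    rw [Finset.prod_insert hx, Finset.prod_insert hx, Finset.card_insert_of_notMem hx]
    have h1 : a x * ∏ i ∈ I, a i - c x * ∏ i ∈ I, c i =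
        (a x - c x) * ∏ i ∈ I, a i + c x * (∏ i ∈ I, a i - ∏ i ∈ I, c i) := by ring
    have h2 : ‖∏ i ∈ I, a i‖ ≤ R ^ I.card := by
      rw [norm_prod]
      exact prod_le_pow I _ _ (fun i _ => norm_nonneg _) (fun i _ => ha i)
    have h0 : (0 : ℝ) ≤ R ^ I.card := by positivity
    have h3 : ‖(a x - c x) * ∏ i ∈ I, a i‖ ≤ δ * R ^ I.card := by
      rw [norm_mul]
      exact mul_le_mul (h x) h2 (norm_nonneg _) hδ
    have h4 : ‖c x * (∏ i ∈ I, a i - ∏ i ∈ I, c i)‖ ≤ R * (I.card * R ^ I.card * δ) := by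
      rw [norm_mul]
      exact mul_le_mul (hc x) ih (norm_nonneg _) (by linarith)
    rw [h1]
    refine (norm_add_le _ _).trans ?_
    have h5 : δ * R ^ I.card ≤ R * (δ * R ^ I.card) :=
      le_mul_of_one_le_left (by positivity) hR
    push_cast
    rw [pow_succ]
    nlinarith

/-- the sum of the absolute values of the coefficients -/
noncomputable def Mb (b : ℕ → ℤ) (κ : ℕ) : ℝ := ∑ l ∈ Finset.range (κ + 1), |(b l : ℝ)|

theorem Mb_nonneg (b : ℕ → ℤ) (κ : ℕ) : 0 ≤ Mb b κ :=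
  Finset.sum_nonneg fun _ _ => abs_nonneg _

/-- bound for a polynomial with bounded coefficients -/
theorem ser_le (b : ℕ → ℤ) (κ : ℕ) (z : ℂ) (B : ℝ) (hB : 1 ≤ B) (hz : ‖z‖ ≤ B) :
    ‖∑ l ∈ Finset.range (κ + 1), (b l : ℂ) * z ^ l‖ ≤ Mb b κ * B ^ κ := by
  refine (norm_sum_le _ _).trans ?_
  unfold Mb
  rw [Finset.sum_mul]
  refine Finset.sum_le_sum fun l hl => ?_
  rw [norm_mul, norm_pow, Complex.norm_intCast]
  refine mul_le_mul_of_nonneg_left ?_ (abs_nonneg _)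
  have hl' : l ≤ κ := by
    rw [Finset.mem_range] at hl
    omega
  exact (pow_le_pow_left₀ (norm_nonneg _) hz l).trans (pow_le_pow_right₀ hB hl')

theorem eval_tr (b : ℕ → ℤ) (κ : ℕ) (z w : ℂ) :
    eval w (tr b κ z) = ∑ l ∈ Finset.range (κ + 1), (b l : ℂ) * (z * w) ^ l := by
  unfold tr
  rw [eval_finsetSum]
  refine Finset.sum_congr rfl fun l _ => ?_
  rw [eval_mul, eval_C, eval_pow, eval_X, mul_pow, mul_assoc]

theorem norm_units (u : ℤˣ) : ‖(((u : ℤˣ) : ℤ) : ℂ)‖ = 1 := by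
  rcases Int.units_eq_one_or u with rfl | rfl <;> simp

section
variable {e : ℕ} (b : ℕ → ℤ) (k κ : ℕ)

/-- bound on the unit circle -/
theorem circle_le {R : ℝ} (hR : Mb b κ ≤ R) (hR1 : 1 ≤ R) (z : Fin e → ℂ)
    (ξ : Fin e → ℤˣ) (B W : ℝ) (hB : 1 ≤ B) (hW : 1 ≤ W) (hz : ∀ i, ‖z i‖ ≤ B)
    (P : Ev e → ℂ[X]) (hP : ∀ I, (P I).natDegree ≤ k) (hPW : ∀ I j, ‖(P I).coeff j‖ ≤ W)
    (y : ℂ) (hy : ‖y‖ = 1) :
    ‖eval y (∑ I : Ev e, C ((sgn ξ I.1 : ℤ) : ℂ) * P I * X ^ (e - I.1.card / 2) *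
      QI b κ z I.1)‖ ≤ Fintype.card (Ev e) * ((k + 1) * W * (R * B ^ κ) ^ e) := by
  rw [eval_finsetSum]
  refine (norm_sum_le _ _).trans ?_
  rw [← Finset.card_univ, ← nsmul_eq_mul]
  refine Finset.sum_le_card_nsmul _ _ _ fun I _ => ?_
  rw [eval_mul, eval_mul, eval_mul, eval_C, eval_pow, eval_X, norm_mul, norm_mul, norm_mul,
    norm_pow, hy, one_pow, mul_one]
  unfold sgn
  rw [norm_units, one_mul]
  have hRB : 1 ≤ R * B ^ κ := one_le_mul_of_one_le_of_one_le hR1 (one_le_pow₀ hB)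
  refine mul_le_mul ?_ ?_ (norm_nonneg _) (by positivity)
  · rw [eval_eq_sum_range' (Nat.lt_succ_of_le (hP I))]
    refine (norm_sum_le _ _).trans ?_
    have h1 : ∀ j ∈ Finset.range (k + 1), ‖(P I).coeff j * y ^ j‖ ≤ W := by
      intro j _
      rw [norm_mul, norm_pow, hy, one_pow, mul_one]
      exact hPW I j
    refine (Finset.sum_le_card_nsmul _ _ _ h1).trans ?_
    rw [Finset.card_range, nsmul_eq_mul]
    push_cast
    exact le_rfl
  · unfold QI
    rw [eval_prod, norm_prod]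
    have h1 : ∀ i ∈ I.1, ‖eval y (tr b κ (z i))‖ ≤ R * B ^ κ := by
      intro i _
      rw [eval_tr]
      refine (ser_le b κ _ B hB ?_).trans ?_
      · rw [norm_mul, hy, mul_one]
        exact hz i
      · exact mul_le_mul_of_nonneg_right hR (by positivity)
    refine (prod_le_pow I.1 _ _ (fun i _ => norm_nonneg _) h1).trans ?_
    refine pow_le_pow_right₀ hRB ?_
    simpa using Finset.card_le_univ I.1

/-- maximum principle -/
theorem disc_le (H : ℂ[X]) (K : ℝ) (h : ∀ y : ℂ, ‖y‖ = 1 → ‖eval y H‖ ≤ K) (w : ℂ)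
    (hw : ‖w‖ ≤ 1) : ‖eval w H‖ ≤ K := by
  have h1 : DiffContOnCl ℂ (fun y : ℂ => eval y H) (Metric.ball 0 1) :=
    H.differentiable.diffContOnCl
  refine Complex.norm_le_of_forall_mem_frontier_norm_le Metric.isBounded_ball h1 ?_ ?_
  · intro y hy
    rw [frontier_ball (0 : ℂ) one_ne_zero] at hy
    exact h y (by simpa using hy)
  · rw [closure_ball (0 : ℂ) one_ne_zero]
    simpa using hw

/-- the estimate at one place -/
theorem core (hκ : k + e ≤ κ) {C₂ R : ℝ} (hC : 0 ≤ C₂) (hR : R = Mb b κ + C₂ + 1)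
    (z s : Fin e → ℂ) (ξ : Fin e → ℤˣ) (V : ℤ) (B W : ℝ) (hV : 0 < V) (hB : 1 ≤ B) (hW : 1 ≤ W)
    (hBV : B ≤ V) (hz : ∀ i, ‖z i‖ ≤ B)
    (hs : ∀ i, ‖s i - (((ξ i : ℤˣ) : ℤ) : ℂ) * (Real.sqrt V * ∑ l ∈ Finset.range (κ + 1),
      (b l : ℂ) * (z i / (V : ℂ)) ^ l)‖ ≤ C₂ * Real.sqrt V * (B / V) ^ (κ + 1))
    (P : Ev e → ℂ[X]) (hP : ∀ I, (P I).natDegree ≤ k) (hPW : ∀ I j, ‖(P I).coeff j‖ ≤ W)
    (hd : X ^ (k + e + 1) ∣ ∑ I : Ev e, C ((sgn ξ I.1 : ℤ) : ℂ) * P I *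
      X ^ (e - I.1.card / 2) * QI b κ z I.1) :
    ‖val k V s P‖ ≤ (V : ℝ)⁻¹ * (Fintype.card (Ev e) * ((k + 1) * W * (R * B ^ κ) ^ e) +
      Fintype.card (Ev e) * ((k + 1) * W * (e * R ^ e * C₂ * B ^ (κ + 1)))) := by
  have hV0 : (0 : ℝ) < (V : ℝ) := by exact_mod_cast hV
  have hV1 : (1 : ℝ) ≤ (V : ℝ) := by exact_mod_cast hV
  have hVc : (V : ℂ) ≠ 0 := by exact_mod_cast hV.ne'
  have hM := Mb_nonneg b κ
  have hR1 : 1 ≤ R := by rw [hR]; linarith
  have hMR : Mb b κ ≤ R := by rw [hR]; linarith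
  set v : ℝ := Real.sqrt V with hv
  have hv0 : 0 < v := Real.sqrt_pos.2 hV0
  have hvv : v * v = (V : ℝ) := Real.mul_self_sqrt hV0.le
  have hvc : (v : ℂ) ≠ 0 := by exact_mod_cast hv0.ne'
  have hvvc : (v : ℂ) * (v : ℂ) = (V : ℂ) := by
    have : ((v * v : ℝ) : ℂ) = ((V : ℝ) : ℂ) := by rw [hvv]
    push_cast at this
    exact this
  have hBV1 : B / V ≤ 1 := (div_le_one hV0).2 hBV
  have hBV0 : 0 ≤ B / V := by positivity
  -- the factors
  obtain ⟨y, hy⟩ : ∃ y : Fin e → ℂ, ∀ i, y i = ∑ l ∈ Finset.range (κ + 1),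
      (b l : ℂ) * (z i / (V : ℂ)) ^ l := ⟨_, fun i => rfl⟩
  obtain ⟨a, ha⟩ : ∃ a : Fin e → ℂ, ∀ i, a i = s i / v := ⟨_, fun i => rfl⟩
  obtain ⟨c, hc⟩ : ∃ c : Fin e → ℂ, ∀ i, c i = (((ξ i : ℤˣ) : ℤ) : ℂ) * y i := ⟨_, fun i => rfl⟩
  have hyM : ∀ i, ‖y i‖ ≤ Mb b κ := by
    intro i
    rw [hy]
    have := ser_le b κ (z i / (V : ℂ)) 1 le_rfl (by
      rw [norm_div, Complex.norm_intCast, abs_of_pos hV0]
      exact (div_le_div_of_nonneg_right (hz i) hV0.le).trans hBV1)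
    simpa using this
  have hcM : ∀ i, ‖c i‖ ≤ Mb b κ := by
    intro i
    rw [hc, norm_mul, norm_units, one_mul]
    exact hyM i
  obtain ⟨δ, hδ⟩ : ∃ δ : ℝ, δ = C₂ * (B / V) ^ (κ + 1) := ⟨_, rfl⟩
  have hδ0 : 0 ≤ δ := by rw [hδ]; positivity
  have hδ1 : δ ≤ C₂ := by
    rw [hδ]
    exact mul_le_of_le_one_right hC (pow_le_one₀ hBV0 hBV1)
  have hac : ∀ i, ‖a i - c i‖ ≤ δ := by
    intro i
    have h1 : a i - c i = (s i - (((ξ i : ℤˣ) : ℤ) : ℂ) * (v * y i)) / v := by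
      rw [ha, hc]
      field_simp
    rw [h1, norm_div, hy, Complex.norm_real, Real.norm_of_nonneg hv0.le, div_le_iff₀ hv0, hδ]
    refine (hs i).trans (le_of_eq ?_)
    ring
  have hcR : ∀ i, ‖c i‖ ≤ R := fun i => (hcM i).trans hMR
  have haR : ∀ i, ‖a i‖ ≤ R := by
    intro i
    have h1 : a i = c i + (a i - c i) := by ring
    rw [h1]
    refine (norm_add_le _ _).trans ?_
    rw [hR]
    linarith [hcM i, hac i]
  obtain ⟨p, hp⟩ : ∃ p : Ev e → ℂ, ∀ I, p I = ∑ j ∈ Finset.range (k + 1),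
      (P I).coeff j * (V : ℂ) ^ (k - j) := ⟨_, fun i => rfl⟩
  have hpn : ∀ I, ‖p I‖ ≤ (k + 1) * W * (V : ℝ) ^ k := by
    intro I
    rw [hp]
    refine (norm_sum_le _ _).trans ?_
    have h1 : ∀ j ∈ Finset.range (k + 1), ‖(P I).coeff j * (V : ℂ) ^ (k - j)‖ ≤
        W * (V : ℝ) ^ k := by
      intro j _
      rw [norm_mul, norm_pow, Complex.norm_intCast, abs_of_pos hV0]
      exact mul_le_mul (hPW I j) (pow_le_pow_right₀ hV1 (Nat.sub_le _ _)) (by positivity)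
        (by linarith)
    refine (Finset.sum_le_card_nsmul _ _ _ h1).trans (le_of_eq ?_)
    rw [Finset.card_range, nsmul_eq_mul]
    push_cast
    ring
  have hm : ∀ I : Ev e, ∃ m, I.1.card = m + m ∧ I.1.card / 2 = m ∧ m ≤ e := by
    intro I
    obtain ⟨m, hm⟩ := I.2
    have h1 : I.1.card ≤ e := by simpa using Finset.card_le_univ I.1
    exact ⟨m, hm, by omega, by omega⟩
  -- the value
  have hval : val k V s P = ∑ I : Ev e, p I * (V : ℂ) ^ (I.1.card / 2) * ∏ i ∈ I.1, c i +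
      ∑ I : Ev e, p I * (V : ℂ) ^ (I.1.card / 2) * (∏ i ∈ I.1, a i - ∏ i ∈ I.1, c i) := by
    rw [← Finset.sum_add_distrib]
    unfold val
    refine Finset.sum_congr rfl fun I _ => ?_
    obtain ⟨m, h1, h2, h3⟩ := hm I
    have h4 : ∏ i ∈ I.1, s i = (V : ℂ) ^ m * ∏ i ∈ I.1, a i := by
      have h5 : ∏ i ∈ I.1, s i = ∏ i ∈ I.1, ((v : ℂ) * a i) := by
        refine Finset.prod_congr rfl fun i _ => ?_
        rw [ha]
        field_simp
      rw [h5, Finset.prod_mul_distrib, Finset.prod_const, h1, pow_add, ← mul_pow, hvvc]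
    rw [h4, h2, ← hp]
    ring
  rw [hval]
  refine (norm_add_le _ _).trans ?_
  rw [mul_add]
  refine add_le_add ?_ ?_
  · -- the main term
    obtain ⟨H, hH⟩ := hd
    have hmain : ∑ I : Ev e, p I * (V : ℂ) ^ (I.1.card / 2) * ∏ i ∈ I.1, c i =
        (V : ℂ)⁻¹ * eval ((V : ℂ)⁻¹) H := by
      have h1 : ∑ I : Ev e, p I * (V : ℂ) ^ (I.1.card / 2) * ∏ i ∈ I.1, c i =
          (V : ℂ) ^ (k + e) * eval ((V : ℂ)⁻¹) (∑ I : Ev e, C ((sgn ξ I.1 : ℤ) : ℂ) * P I *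
            X ^ (e - I.1.card / 2) * QI b κ z I.1) := by
        rw [eval_finsetSum, Finset.mul_sum]
        refine Finset.sum_congr rfl fun I _ => ?_
        obtain ⟨m, h1, h2, h3⟩ := hm I
        rw [eval_mul, eval_mul, eval_mul, eval_C, eval_pow, eval_X, h2]
        have h4 : p I = (V : ℂ) ^ k * eval ((V : ℂ)⁻¹) (P I) := by
          rw [hp, eval_eq_sum_range' (Nat.lt_succ_of_le (hP I)), Finset.mul_sum]
          refine Finset.sum_congr rfl fun j hj => ?_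
          have hj' : j ≤ k := by
            rw [Finset.mem_range] at hj
            omega
          obtain ⟨r, rfl⟩ := Nat.exists_eq_add_of_le hj'
          rw [Nat.add_sub_cancel_left, pow_add, inv_pow]
          field_simp
        have h5 : eval ((V : ℂ)⁻¹) (QI b κ z I.1) = ∏ i ∈ I.1, y i := by
          unfold QI
          rw [eval_prod]
          refine Finset.prod_congr rfl fun i _ => ?_
          rw [eval_tr, hy]
          rfl
        have h6 : ∏ i ∈ I.1, c i = ((sgn ξ I.1 : ℤ) : ℂ) * ∏ i ∈ I.1, y i := by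
          have h7 : ((sgn ξ I.1 : ℤ) : ℂ) = ∏ i ∈ I.1, (((ξ i : ℤˣ) : ℤ) : ℂ) := by
            unfold sgn
            push_cast
            rfl
          rw [h7, ← Finset.prod_mul_distrib]
          exact Finset.prod_congr rfl fun i _ => hc i
        rw [h4, h5, h6]
        obtain ⟨r, hr⟩ := Nat.exists_eq_add_of_le h3
        have h8 : e - m = r := by omega
        rw [h8]
        have h9 : (V : ℂ) ^ (k + e) * ((V : ℂ)⁻¹) ^ r = (V : ℂ) ^ k * (V : ℂ) ^ m := by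
          rw [hr, pow_add, pow_add, inv_pow]
          field_simp
        calc (V : ℂ) ^ k * eval ((V : ℂ)⁻¹) (P I) * (V : ℂ) ^ m *
              (((sgn ξ I.1 : ℤ) : ℂ) * ∏ i ∈ I.1, y i)
            = ((V : ℂ) ^ k * (V : ℂ) ^ m) * (((sgn ξ I.1 : ℤ) : ℂ) * eval ((V : ℂ)⁻¹) (P I) *
              ∏ i ∈ I.1, y i) := by ring
          _ = _ := by
            rw [← h9]
            ring
      rw [h1, hH, eval_mul, eval_pow, eval_X, pow_succ ((V : ℂ)⁻¹), inv_pow]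
      have h2 : (V : ℂ) ^ (k + e) ≠ 0 := pow_ne_zero _ hVc
      field_simp
    rw [hmain, norm_mul, norm_inv, Complex.norm_intCast, abs_of_pos hV0]
    refine mul_le_mul_of_nonneg_left ?_ (by positivity)
    refine disc_le H _ ?_ _ ?_
    · intro x hx
      have h1 := circle_le b k κ hMR hR1 z ξ B W hB hW hz P hP hPW x hx
      rw [hH, eval_mul, eval_pow, eval_X, norm_mul, norm_pow, hx, one_pow, one_mul] at h1
      exact h1
    · rw [norm_inv, Complex.norm_intCast, abs_of_pos hV0]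
      exact inv_le_one_of_one_le₀ hV1
  · -- the error
    refine (norm_sum_le _ _).trans ?_
    have h1 : ∀ I ∈ (Finset.univ : Finset (Ev e)),
        ‖p I * (V : ℂ) ^ (I.1.card / 2) * (∏ i ∈ I.1, a i - ∏ i ∈ I.1, c i)‖ ≤
        (V : ℝ)⁻¹ * ((k + 1) * W * (e * R ^ e * C₂ * B ^ (κ + 1))) := by
      intro I _
      obtain ⟨m, h1, h2, h3⟩ := hm I
      rw [h2, norm_mul, norm_mul, norm_pow, Complex.norm_intCast, abs_of_pos hV0]
      have hce : I.1.card ≤ e := by simpa using Finset.card_le_univ I.1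
      have h4 : ‖∏ i ∈ I.1, a i - ∏ i ∈ I.1, c i‖ ≤ e * R ^ e * δ := by
        refine (prod_diff I.1 a c R δ hR1 hδ0 haR hcR hac).trans ?_
        refine mul_le_mul_of_nonneg_right ?_ hδ0
        refine mul_le_mul (by exact_mod_cast hce) (pow_le_pow_right₀ hR1 hce) (by positivity)
          (by positivity)
      have h5 : (V : ℝ) ^ m ≤ (V : ℝ) ^ e := pow_le_pow_right₀ hV1 h3
      have h6 : ‖p I‖ * (V : ℝ) ^ m * ‖∏ i ∈ I.1, a i - ∏ i ∈ I.1, c i‖ ≤
          ((k + 1) * W * (V : ℝ) ^ k) * (V : ℝ) ^ e * (e * R ^ e * δ) :=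
        mul_le_mul (mul_le_mul (hpn I) h5 (by positivity) (by positivity)) h4 (norm_nonneg _)
          (by positivity)
      refine h6.trans ?_
      have h7 : (V : ℝ) ^ k * (V : ℝ) ^ e * (B / V) ^ (κ + 1) ≤ (V : ℝ)⁻¹ * B ^ (κ + 1) := by
        rw [← pow_add, div_pow, pow_succ (V : ℝ) κ]
        have h8 : (V : ℝ) ^ (k + e) ≤ (V : ℝ) ^ κ := pow_le_pow_right₀ hV1 hκ
        have h9 : (0 : ℝ) < (V : ℝ) ^ κ := by positivity
        rw [mul_div_assoc', div_le_iff₀ (by positivity)]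
        calc (V : ℝ) ^ (k + e) * B ^ (κ + 1) ≤ (V : ℝ) ^ κ * B ^ (κ + 1) :=
              mul_le_mul_of_nonneg_right h8 (by positivity)
          _ = (V : ℝ)⁻¹ * B ^ (κ + 1) * ((V : ℝ) ^ κ * V) := by
              field_simp
      rw [hδ]
      calc (k + 1) * W * (V : ℝ) ^ k * (V : ℝ) ^ e * (e * R ^ e * (C₂ * (B / V) ^ (κ + 1)))
          = ((k + 1) * W * (e * R ^ e * C₂)) * ((V : ℝ) ^ k * (V : ℝ) ^ e *
            (B / V) ^ (κ + 1)) := by ring
        _ ≤ ((k + 1) * W * (e * R ^ e * C₂)) * ((V : ℝ)⁻¹ * B ^ (κ + 1)) :=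
            mul_le_mul_of_nonneg_left h7 (by positivity)
        _ = _ := by ring
    refine (Finset.sum_le_card_nsmul _ _ _ h1).trans (le_of_eq ?_)
    rw [Finset.card_univ, nsmul_eq_mul]
    ring

end

/-- an integral element which is small at all places vanishes -/
theorem zero_of_small {L : Type} [Field L] [NumberField L] [IsGalois ℚ L] (ψ : L →+* ℂ)
    (α : 𝓞 L) (h : ∀ g : L ≃ₐ[ℚ] L, ‖ψ (g (α : L))‖ < 1) : α = 0 := by
  by_contra hα
  have h1 := Algebra.norm_eq_prod_automorphisms ℚ (α : L)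
  have h2 : ‖ψ (algebraMap ℚ L (Algebra.norm ℚ (α : L)))‖ < 1 := by
    rw [h1, map_prod, norm_prod]
    have h3 : ∏ g : L ≃ₐ[ℚ] L, ‖ψ (g (α : L))‖ < ∏ _g : L ≃ₐ[ℚ] L, (1 : ℝ) := by
      apply Finset.prod_lt_prod_of_nonempty
      · intro g _
        rw [norm_pos_iff, _root_.map_ne_zero, _root_.map_ne_zero]
        exact fun h0 => hα (by exact_mod_cast h0)
      · exact fun g _ => h g
      · exact Finset.univ_nonempty
    rwa [Finset.prod_const_one] at h3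
  have h4 : ψ (algebraMap ℚ L (Algebra.norm ℚ (α : L))) = ((Algebra.norm ℤ α : ℤ) : ℂ) := by
    rw [← Algebra.coe_norm_int α]
    simp
  rw [h4, Complex.norm_intCast] at h2
  have h5 : |Algebra.norm ℤ α| < 1 := by exact_mod_cast h2
  rw [Int.abs_lt_one_iff] at h5
  rw [Algebra.norm_eq_zero_iff] at h5
  exact hα h5

theorem map_val {R S : Type} [CommRing R] [CommRing S] (f : R →+* S) {e : ℕ} (k : ℕ) (V : ℤ)
    (s : Fin e → R) (P : Ev e → R[X]) :
    f (val k V s P) = val k V (fun i => f (s i)) (fun I => (P I).map f) := by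
  unfold val
  simp only [map_sum, map_mul, map_prod, map_pow, map_intCast, coeff_map]

theorem map_G {R S : Type} [CommRing R] [CommRing S] (f : R →+* S) {e : ℕ} (b : ℕ → ℤ) (κ : ℕ)
    (z : Fin e → R) (ξ : Fin e → ℤˣ) (P : Ev e → R[X]) :
    (∑ I : Ev e, C ((sgn ξ I.1 : ℤ) : R) * P I * X ^ (e - I.1.card / 2) *
      QI b κ z I.1).map f = ∑ I : Ev e, C ((sgn ξ I.1 : ℤ) : S) * (P I).map f *
      X ^ (e - I.1.card / 2) * QI b κ (fun i => f (z i)) I.1 := by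
  unfold QI tr
  simp only [Polynomial.map_sum, Polynomial.map_mul, Polynomial.map_prod, Polynomial.map_pow,
    map_X, map_C, map_mul, map_pow, map_intCast, Polynomial.map_intCast]

theorem small : SMALL := by
  intro e he b k κ hκ C₂ hC₂
  obtain ⟨R, hR⟩ : ∃ R : ℝ, R = Mb b κ + C₂ + 1 := ⟨_, rfl⟩
  have hM := Mb_nonneg b κ
  have hR1 : 1 ≤ R := by rw [hR]; linarith
  obtain ⟨C₁, hC₁⟩ := exists_nat_gt (Fintype.card (Ev e) * ((k + 1) * R ^ e) +
    Fintype.card (Ev e) * ((k + 1) * (e * R ^ e * C₂)) : ℝ)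
  refine ⟨C₁ + 1, κ * e + κ + 1, ?_⟩
  intro L _ _ _ ψ z s V B W hV hB hW hz hs π ξ hπ hξ P hP hPW hd hVbig
  have hV0 : (0 : ℝ) < (V : ℝ) := by exact_mod_cast hV
  have hBW : 1 ≤ B * W := one_le_mul_of_one_le_of_one_le hB hW
  have hBWk : B * W ≤ (B * W) ^ (κ * e + κ + 1) := le_self_pow₀ hBW (by omega)
  have hpow : (1 : ℝ) ≤ (B * W) ^ (κ * e + κ + 1) := one_le_pow₀ hBW
  have hBV : B ≤ V := by
    have h1 : B ≤ B * W := le_mul_of_one_le_right (by linarith) hW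
    have h2 : (B * W) ^ (κ * e + κ + 1) ≤ ((C₁ + 1 : ℕ) : ℝ) * (B * W) ^ (κ * e + κ + 1) := by
      refine le_mul_of_one_le_left (by positivity) ?_
      push_cast
      linarith [(Nat.cast_nonneg C₁ : (0 : ℝ) ≤ C₁)]
    linarith
  refine zero_of_small ψ _ fun g => ?_
  -- the embedding
  let σ : L →+* ℂ := ψ.comp (g : L →+* L)
  let f : 𝓞 L →+* ℂ := σ.comp (algebraMap (𝓞 L) L)
  have hf : ∀ x : 𝓞 L, f x = ψ (g (x : L)) := fun x => rfl
  have h1 : ψ (g ((val k V s P : 𝓞 L) : L)) = f (val k V s P) := rfl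
  rw [h1, map_val]
  have h2 := core b k κ hκ hC₂ hR (fun i => f (z i)) (fun i => f (s i)) (ξ g) V B W hV hB hW hBV
    (fun i => hz σ i) (fun i => by
      have h3 : f (s i) = (((ξ g i : ℤˣ) : ℤ) : ℂ) * ψ (s (π g i) : L) := by
        rw [hf, hξ, map_mul, map_intCast]
      have h4 : f (z i) = ψ (z (π g i) : L) := by
        rw [hf, hπ]
      rw [h3, h4, ← mul_sub, norm_mul, norm_units, one_mul]
      exact hs (π g i)) (fun I => (P I).map f)
    (fun I => (natDegree_map_le).trans (hP I))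
    (fun I j => by
      rw [coeff_map]
      exact hPW I j σ)
    (by
      have h5 := Polynomial.map_dvd f (hd g)
      rw [map_G] at h5
      simpa using h5)
  refine h2.trans_lt ?_
  rw [inv_mul_lt_iff₀ hV0, mul_one]
  have hN : (0 : ℝ) ≤ Fintype.card (Ev e) := Nat.cast_nonneg _
  have h6 : W * (B ^ κ) ^ e ≤ (B * W) ^ (κ * e + κ + 1) := by
    rw [← pow_mul, mul_pow, mul_comm]
    exact mul_le_mul (pow_le_pow_right₀ hB (by omega)) (le_self_pow₀ hW (by omega))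
      (by linarith) (by positivity)
  have h7 : W * B ^ (κ + 1) ≤ (B * W) ^ (κ * e + κ + 1) := by
    rw [mul_pow, mul_comm]
    exact mul_le_mul (pow_le_pow_right₀ hB (by omega)) (le_self_pow₀ hW (by omega))
      (by linarith) (by positivity)
  calc (Fintype.card (Ev e) * ((k + 1) * W * (R * B ^ κ) ^ e) +
      Fintype.card (Ev e) * ((k + 1) * W * (e * R ^ e * C₂ * B ^ (κ + 1))) : ℝ)
      = (Fintype.card (Ev e) * ((k + 1) * R ^ e)) * (W * (B ^ κ) ^ e) +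
        (Fintype.card (Ev e) * ((k + 1) * (e * R ^ e * C₂))) * (W * B ^ (κ + 1)) := by
        rw [mul_pow]
        ring
    _ ≤ (Fintype.card (Ev e) * ((k + 1) * R ^ e)) * (B * W) ^ (κ * e + κ + 1) +
        (Fintype.card (Ev e) * ((k + 1) * (e * R ^ e * C₂))) * (B * W) ^ (κ * e + κ + 1) :=
        add_le_add (mul_le_mul_of_nonneg_left h6 (by positivity))
          (mul_le_mul_of_nonneg_left h7 (by positivity))
    _ = (Fintype.card (Ev e) * ((k + 1) * R ^ e) +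
        Fintype.card (Ev e) * ((k + 1) * (e * R ^ e * C₂))) * (B * W) ^ (κ * e + κ + 1) := by
        ring
    _ < ((C₁ + 1 : ℕ) : ℝ) * (B * W) ^ (κ * e + κ + 1) := by
        refine mul_lt_mul_of_pos_right ?_ (by positivity)
        push_cast
        linarith
    _ ≤ V := hVbig

end Pool.Agent.Y688.HY
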